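import Pool.Agent.H703R3.OSMeasure2

/-!
# MP_94eb8e_an: an invariant measure of the annulus billiard without Oseledets integrability

The billiard table is the round annulus `1/2 ≤ |z| ≤ 1`: its boundary consists of two disjoint
`C^∞` circles, so that it has no corners and no cusps. Its billiard map has an invariant probability
measure that gives no mass to the periodic points and for which `∫ log⁺ ‖D_x T‖ dμ = ∞`.

The measure is `∑ 2⁻ⁿ⁻¹ μ n`, where `μ n` is the uniform measure on an invariant torus with
irrational rotation on which the collisions with the inner circle have `cos φ ≤ 2 exp (-4 ^ n)`.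
-/

set_option autoImplicit false

namespace Pool.Agent.Results.MP_94eb8e_an.AnnulusInfiniteLog

open Set MeasureTheory Pool.Agent.H703R3.OS

/-- There is a billiard table without corners, namely the round annulus `1/2 ≤ |z| ≤ 1`, and a
non-periodic invariant probability measure `μ` of its billiard map for which `log⁺ ‖D_x T‖` is not
`μ`-integrable. -/
theorem result : ∃ (Q : Set ℂ) (k : ℕ) (γ : Fin k → ℝ → ℂ) (L : Fin k → ℝ),
    IsSmoothTable Q γ L ∧ Q = {z : ℂ | 1 / 2 ≤ ‖z‖ ∧ ‖z‖ ≤ 1} ∧
    ∃ μ : Measure (ℂ × ℂ), IsInvariantProb Q γ μ ∧ NonPeriodic Q γ μ ∧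
      ∫⁻ x, logDT Q γ x ∂μ = ⊤ ∧ ¬ OseledetsIntegrable Q γ μ := by
  choose t ht using fun n : ℕ => exists_torus (Real.exp (4 ^ n))
  refine ⟨ann, 2, annγ, annL, isSmoothTable_ann, rfl, muS t, isInvariantProb_muS t,
    nonPeriodic_muS t, lintegral_logDT t ht, ?_⟩
  rintro ⟨h, -⟩
  rw [lintegral_logDT t ht] at h
  exact lt_irrefl _ h

end Pool.Agent.Results.MP_94eb8e_an.AnnulusInfiniteLog
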